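import Pool.Agent.H18.SAP.Stmts

/-! # SAP: assembly of the system (module ASM) -/

set_option autoImplicit false

namespace SAP
open Finset

theorem asm (hSYS : S_SYS) : S_ASM := by
  classical
  intro K L n Y J _ c I hL hY hmono hpos hdiv hsm hcard hSel hgad
  have hslot : ∀ j, ∃ s : Fin (2 * L) → Fin n, StrictMono s ∧ ∀ a, s a ∈ I j := by
    intro j
    obtain ⟨I', hI', hc⟩ := Finset.exists_subset_card_eq (hcard j)
    exact ⟨fun a => I'.orderEmbOfFin hc a, (I'.orderEmbOfFin hc).strictMono,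
      fun a => hI' (Finset.orderEmbOfFin_mem _ _ _)⟩
  choose s hs hsI using hslot
  obtain ⟨lo, hlo⟩ : ∃ lo : Fin L → J → Fin n, ∀ l j, lo l j = s j ⟨2 * l, by omega⟩ :=
    ⟨fun l j => s j ⟨2 * l, by omega⟩, fun _ _ => rfl⟩
  obtain ⟨hi, hhi⟩ : ∃ hi : Fin L → J → Fin n, ∀ l j, hi l j = s j ⟨2 * l + 1, by omega⟩ :=
    ⟨fun l j => s j ⟨2 * l + 1, by omega⟩, fun _ _ => rfl⟩
  have hloI : ∀ l j, lo l j ∈ I j := fun l j => by rw [hlo]; exact hsI _ _
  have hhiI : ∀ l j, hi l j ∈ I j := fun l j => by rw [hhi]; exact hsI _ _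
  have hlohi : ∀ l j, lo l j < hi l j := by
    intro l j
    rw [hlo, hhi]
    exact hs j (by simp [Fin.lt_def])
  -- slots of different stages are different
  have hne : ∀ l l' j, l ≠ l' → lo l j ≠ lo l' j ∧ lo l j ≠ hi l' j ∧ hi l j ≠ lo l' j ∧
      hi l j ≠ hi l' j := by
    intro l l' j hll
    have hv : (l : ℕ) ≠ l' := fun h => hll (Fin.ext h)
    simp only [hlo, hhi]
    refine ⟨?_, ?_, ?_, ?_⟩ <;> intro h <;> have := (hs j).injective h <;>
      simp only [Fin.mk.injEq] at this <;> omega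
  -- gadgets
  have hg : ∀ (l : Fin L) (ℓ : {ℓ : Fin (Y + 1) // (ℓ : ℕ).Prime}), ∃ k0 : ℕ, 0 < k0 ∧
      k0 < (ℓ.1 : ℕ) * k0.totient ∧ ∃ s : List (J × Bool),
        (((ℓ.1 : ℕ) * k0.totient : ℕ) : ℚ) = (s.map (val c (lo l) (hi l))).prod := by
    intro l ℓ
    exact hgad (lo l) (hi l) (hlohi l) ℓ.1 ℓ.2 (by have := ℓ.1.2; omega)
  choose k0' hk0pos hk0lt sl hsl using hg
  obtain ⟨k0, hk0⟩ : ∃ k0 : Fin L → ℕ → ℕ, ∀ l (ℓ : {ℓ : Fin (Y + 1) // (ℓ : ℕ).Prime}),
      k0 l ℓ.1 = k0' l ℓ := by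
    refine ⟨fun l ℓ => if h : ℓ.Prime ∧ ℓ ≤ Y then k0' l ⟨⟨ℓ, by omega⟩, h.1⟩ else 1, fun l ℓ => ?_⟩
    have h : ((ℓ.1 : ℕ)).Prime ∧ (ℓ.1 : ℕ) ≤ Y := ⟨ℓ.2, by have := ℓ.1.2; omega⟩
    simp only [h, and_self, dif_pos]
  let Idx : Type := Fin L × {ℓ : Fin (Y + 1) // (ℓ : ℕ).Prime}
  let Pos : Type := Σ x : Idx, Fin (sl x.1 x.2).length
  let tup : Pos → J := fun π => ((sl π.1.1 π.1.2).get π.2).1
  let dir : Pos → Bool := fun π => ((sl π.1.1 π.1.2).get π.2).2
  let slA : Fin L → Pos → Fin n := fun l π =>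
    if l = π.1.1 then (if dir π then hi l (tup π) else lo l (tup π)) else lo l (tup π)
  let slB : Fin L → ℕ → Pos → Fin n := fun l ℓ π =>
    if l = π.1.1 ∧ ℓ = π.1.2.1 then (if dir π then lo l (tup π) else hi l (tup π)) else slA l π
  have hslA : ∀ l π, slA l π = lo l (tup π) ∨ slA l π = hi l (tup π) := by
    intro l π
    simp only [slA]
    split_ifs <;> simp
  have hslB : ∀ l ℓ π, slB l ℓ π = lo l (tup π) ∨ slB l ℓ π = hi l (tup π) := by
    intro l ℓ π
    simp only [slB]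
    split_ifs
    · simp
    · simp
    · exact hslA l π
  have hslAI : ∀ l π, slA l π ∈ I (tup π) := by
    intro l π
    rcases hslA l π with h | h <;> rw [h]
    · exact hloI _ _
    · exact hhiI _ _
  have hslBI : ∀ l ℓ π, slB l ℓ π ∈ I (tup π) := by
    intro l ℓ π
    rcases hslB l ℓ π with h | h <;> rw [h]
    · exact hloI _ _
    · exact hhiI _ _
  let A : Fin L → Pos → ℕ := fun l π => c (tup π) (slA l π)
  let B : Fin L → ℕ → Pos → ℕ := fun l ℓ π => c (tup π) (slB l ℓ π)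
  have hlpos : ∀ (l : Fin L) (ℓ : {ℓ : Fin (Y + 1) // (ℓ : ℕ).Prime}), sl l ℓ ≠ [] := by
    intro l ℓ h
    have h1 := hsl l ℓ
    rw [h] at h1
    simp only [List.map_nil, List.prod_nil] at h1
    have h2 : (ℓ.1 : ℕ) * (k0' l ℓ).totient = 1 := by exact_mod_cast h1
    have h3 := Nat.eq_one_of_mul_eq_one_right h2
    have h4 := ℓ.2.two_le
    omega
  haveI : Nonempty Pos := by
    refine ⟨⟨(⟨0, by omega⟩, ⟨⟨2, by omega⟩, Nat.prime_two⟩), ⟨0, ?_⟩⟩⟩
    exact List.length_pos_iff.mpr (hlpos _ _)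
  set NP := Fintype.card Pos with hNP
  obtain ⟨G, hG⟩ : ∃ G : ℕ, G = ∑ l : Fin L, ∑ ℓ ∈ range (Y + 1), ℓ * (k0 l ℓ).totient := ⟨_, rfl⟩
  obtain ⟨Cm, hCm⟩ : ∃ Cm : ℕ, Cm = ∑ j, ∑ i, c j i := ⟨_, rfl⟩
  have hcle : ∀ j i, c j i ≤ Cm := by
    intro j i
    rw [hCm]
    exact (Finset.single_le_sum (f := fun i => c j i) (fun _ _ => Nat.zero_le _)
      (Finset.mem_univ i)).trans (Finset.single_le_sum (f := fun j => ∑ i, c j i)
        (fun _ _ => Nat.zero_le _) (Finset.mem_univ j))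
  have hGle : ∀ l, ∀ ℓ : ℕ, ℓ ≤ Y → ℓ * (k0 l ℓ).totient ≤ G := by
    intro l ℓ hℓ
    rw [hG]
    exact (Finset.single_le_sum (f := fun ℓ => ℓ * (k0 l ℓ).totient) (fun _ _ => Nat.zero_le _)
      (Finset.mem_range.mpr (Nat.lt_succ_of_le hℓ))).trans (Finset.single_le_sum
        (f := fun l => ∑ ℓ ∈ range (Y + 1), ℓ * (k0 l ℓ).totient) (fun _ _ => Nat.zero_le _)
        (Finset.mem_univ l))
  obtain ⟨X, t, hX0X, htX, htcop, htr, -, htp, htP⟩ :=
    hSel NP (200 * (L * NP) * Cm + 1) (Cm + Y + 2 * (L * NP) * G + G + 1)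
  let e : Pos ≃ Fin NP := Fintype.equivFin Pos
  let tt : Pos → ℕ := fun π => t (tup π) (e π)
  have key : Sys L Y (200 * (L * NP) * Cm + 1) X (Cm + Y + 2 * (L * NP) * G + G + 1) Cm G Pos tt A B
      k0 := by
    refine ⟨fun π => htX _ _, ?_, fun π p hp hpt => htr _ _ p hp hpt, fun l π => ⟨hpos _ _, hcle _ _⟩,
      fun l ℓ _ _ π => ⟨hpos _ _, hcle _ _⟩, fun l π p hp hpY => hdiv _ _ p hp hpY,
      fun l π p hp hpc => hsm _ _ p hp hpc, fun l π => htp _ _ _ (hslAI l π),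
      fun l ℓ _ _ π => htp _ _ _ (hslBI l ℓ π), ?_, ?_, ?_, ?_, ?_, by omega, by omega, ?_, ?_, ?_⟩
    · intro π π' hππ
      refine htcop _ _ _ _ ?_
      intro h
      exact hππ (e.injective (Prod.ext_iff.mp h).2)
    · intro l l' π hll
      intro h
      have h1 := (hmono (tup π)).injective h
      obtain ⟨a1, a2, a3, a4⟩ := hne l l' (tup π) hll
      rcases hslA l π with h2 | h2 <;> rcases hslA l' π with h3 | h3 <;>
        rw [h2, h3] at h1 <;> contradiction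
    · intro l l' π ℓ _ _ hll
      intro h
      have h1 := (hmono (tup π)).injective h
      obtain ⟨a1, a2, a3, a4⟩ := hne l l' (tup π) hll
      rcases hslB l ℓ π with h2 | h2 <;> rcases hslA l' π with h3 | h3 <;>
        rw [h2, h3] at h1 <;> contradiction
    · intro l ℓ hℓ hℓY
      have h1 := hk0 l ⟨⟨ℓ, by omega⟩, hℓ⟩
      simp only at h1
      have h2 := hk0pos l ⟨⟨ℓ, by omega⟩, hℓ⟩
      have h3 := hk0lt l ⟨⟨ℓ, by omega⟩, hℓ⟩
      simp only at h3
      rw [← h1] at h2 h3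
      exact ⟨h2, h3, hGle l ℓ hℓY⟩
    · intro l ℓ hℓ hℓY
      have h1 := hk0 l ⟨⟨ℓ, by omega⟩, hℓ⟩
      simp only at h1
      have h2 := hsl l ⟨⟨ℓ, by omega⟩, hℓ⟩
      simp only at h2
      rw [← h1] at h2
      have hc0 : ∀ j i, (c j i : ℚ) ≠ 0 := fun j i => by
        have := hpos j i
        exact_mod_cast (show c j i ≠ 0 by omega)
      have hval : ∀ x : Idx, ∏ a : Fin (sl x.1 x.2).length,
          ((A l ⟨x, a⟩ : ℚ) / B l ℓ ⟨x, a⟩) =
          if x = (l, ⟨⟨ℓ, by omega⟩, hℓ⟩) then ((ℓ * (k0 l ℓ).totient : ℕ) : ℚ) else 1 := by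
        intro x
        split_ifs with hx
        · subst hx
          rw [h2]
          rw [← List.prod_ofFn]
          congr 1
          refine List.ext_getElem (by simp) ?_
          intro a ha1 ha2
          simp only [List.getElem_ofFn, List.getElem_map]
          simp only [A, B, slA, slB, tup, dir, if_true, and_self, val, List.get_eq_getElem]
          split_ifs <;> rfl
        · refine Finset.prod_eq_one fun a _ => ?_
          have hnot : ¬ (l = x.1 ∧ ℓ = x.2.1) := by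
            rintro ⟨h3, h4⟩
            apply hx
            refine Prod.ext h3.symm ?_
            exact Subtype.ext (Fin.ext h4.symm)
          have : A l ⟨x, a⟩ = B l ℓ ⟨x, a⟩ := by
            simp only [A, B, slB, hnot, if_false]
          rw [this, div_self]
          exact hc0 _ _
      have h3 : ∏ π : Pos, ((A l π : ℚ) / B l ℓ π) = ((ℓ * (k0 l ℓ).totient : ℕ) : ℚ) := by
        rw [Fintype.prod_sigma]
        rw [Finset.prod_congr rfl (fun x _ => hval x)]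
        rw [Finset.prod_ite_eq' univ]
        simp
      rw [Finset.prod_div_distrib, div_eq_iff] at h3
      · exact_mod_cast h3
      · exact Finset.prod_ne_zero_iff.mpr fun π _ => hc0 _ _
    · intro l π ρ hρ hρt
      obtain ⟨P, h1, h2, h3, h4⟩ := htP _ _ _ (hslAI l π) ρ hρ hρt
      exact ⟨P, h1, h2, h3, fun l' π' => h4 _ _ _ (hslAI l' π')⟩
    · rw [← hNP]
      omega
    · omega
    · rw [← hNP]
      omega
  exact hSYS L Y _ X _ Cm G Pos tt A B k0 hY key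

end SAP
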