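import Pool.Agent.H18.SAP.Stmts

/-! # SAP: chains of arbitrary length (module CHAIN) -/

set_option autoImplicit false

namespace SAP
open Finset

theorem chain (hSEL : S_SEL) (hGAD : S_GAD) (hGDG : S_GDG) (hPIG : S_PIG) (hTUA : S_TUA)
    (hEXA : S_EXA) (hASM : S_ASM) : S_CHAIN := by
  classical
  intro L
  rcases Nat.eq_zero_or_pos L with hL0 | hL
  · subst hL0
    exact ⟨fun _ => 1, fun i => i.elim0, fun i => i.elim0, fun i => i.elim0, fun i => i.elim0⟩
  obtain ⟨K, hSEL⟩ := hSEL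
  obtain ⟨n, hSEL⟩ := hSEL (2 * L)
  obtain ⟨M, hM⟩ : ∃ M : ℕ, M = 2 * n.factorial := ⟨_, rfl⟩
  have hM2 : 2 ≤ M := by have := n.factorial_pos; omega
  obtain ⟨e, t, q, hgad⟩ := hGAD M (n * M) 3 (by omega)
  obtain ⟨F, hF⟩ : ∃ F : Fin (n * M) → ℕ, ∀ a, F a = t a * (t a).totient := ⟨_, fun _ => rfl⟩
  obtain ⟨Y, hY⟩ : ∃ Y : ℕ, Y = e + (∑ a, t a) + n + L + 3 := ⟨_, rfl⟩
  have htY : ∀ a, t a ≤ Y := by
    intro a
    have := Finset.single_le_sum (f := t) (fun _ _ => Nat.zero_le _) (Finset.mem_univ a)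
    omega
  have hF1 : ∀ a, 1 ≤ F a := by
    intro a
    rw [hF]
    have h1 := hgad.ht a
    have h2 : 0 < (t a).totient := Nat.totient_pos.mpr (by omega)
    exact Nat.mul_pos (by omega) h2
  obtain ⟨u, hu⟩ : ∃ u : ℕ, u = ∑ a, F a := ⟨_, rfl⟩
  have hFu : ∀ a, F a < 2 ^ u := by
    intro a
    have h1 := Finset.single_le_sum (f := F) (fun _ _ => Nat.zero_le _) (Finset.mem_univ a)
    have h2 : u < 2 ^ u := Nat.lt_two_pow_self
    omega
  have hFp : ∀ a, ∀ p : ℕ, p.Prime → p ∣ F a → p ≤ Y := by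
    intro a p hp hpF
    rw [hF] at hpF
    have h1 := hgad.ht a
    rcases (Nat.Prime.dvd_mul hp).mp hpF with h | h
    · exact (Nat.le_of_dvd (by omega) h).trans (htY a)
    · have h2 : 0 < (t a).totient := Nat.totient_pos.mpr (by omega)
      exact (Nat.le_of_dvd h2 h).trans ((Nat.totient_le _).trans (htY a))
  have hY2 : 2 ≤ Y := by omega
  obtain ⟨T1, T2, T3, T4⟩ := hTUA n (n * M) Y M u F hY2 (by omega) (fun a => ⟨hF1 a, hFu a⟩) hFp
  haveI : Fintype (Fin n ↪o Fin (n * M)) :=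
    Fintype.ofInjective (fun f : Fin n ↪o Fin (n * M) => (f : Fin n → Fin (n * M)))
      (fun f g h => DFunLike.coe_injective h)
  obtain ⟨I, hI, hSel⟩ := hSEL (JJ n (n * M) Y) (cc n (n * M) Y M u F) T1 T2
    (fun j i p hp hpn => T3 j i p hp (by omega))
  obtain ⟨C, c1, c2, c3, c4⟩ := hASM K L n Y (JJ n (n * M) Y) (cc n (n * M) Y M u F) I hL hY2 T1 T2
    T3 T4 hI hSel (by
      intro lo hi hlt
      obtain ⟨E1, E2⟩ := hEXA n (n * M) Y M u F lo hi hY2 hF1 (by
        intro d hd1 hdn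
        rw [hM]
        exact (Nat.dvd_factorial hd1 hdn.le).mul_left 2) hlt
      obtain ⟨S, hS, hSr⟩ := hPIG (n * M) n M
        (fun a b => Ex (cc n (n * M) Y M u F) lo hi ((F a : ℚ) / (F b : ℚ)))
        (by
          intro a
          have : (F a : ℚ) ≠ 0 := by have := hF1 a; positivity
          rw [div_self this]
          exact Ex.one _ _ _)
        (by
          intro a b h
          have := h.inv
          rwa [inv_div] at this)
        (by
          intro a b d h1 h2
          have := h1.mul h2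
          have hb : (F b : ℚ) ≠ 0 := by have := hF1 b; positivity
          rwa [div_mul_div_cancel₀ hb] at this)
        (by
          intro f
          exact ⟨hi (Sum.inr f), lo (Sum.inr f), (hlt _).ne', E2 f⟩)
        le_rfl
      exact hGDG M (n * M) Y e t q (Ex (cc n (n * M) Y M u F) lo hi) S hM2 (by omega) htY hgad
        (Ex.one _ _ _) (fun a b ha hb => ha.mul hb) E1 hS (by
          intro a ha b hb
          have := hSr a ha b hb
          rwa [hF, hF] at this))
  exact ⟨C, c1, c2, fun i p hp hpL => c3 i p hp (by omega), c4⟩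

end SAP
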