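import Pool.Agent.H18.SAP.Stmts

/-! # SAP: the final step (module FIN) -/

set_option autoImplicit false

namespace SAP
open Finset

theorem fin (hSEL : S_SEL) (hCHAIN : S_CHAIN) : S_FIN := by
  classical
  intro N
  obtain ⟨K, hSEL⟩ := hSEL
  obtain ⟨n, hSEL⟩ := hSEL 2
  obtain ⟨C, C1, C2, C3, C4⟩ := hCHAIN n
  obtain ⟨I, hI, hSel⟩ := hSEL Unit (fun _ => C) (fun _ => C1) (fun _ => C2)
    (fun _ i p hp hpn => C3 i p hp hpn)
  obtain ⟨Cm, hCm⟩ : ∃ Cm : ℕ, Cm = ∑ i, C i := ⟨_, rfl⟩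
  have hCle : ∀ i, C i ≤ Cm := fun i => by
    rw [hCm]
    exact Finset.single_le_sum (f := C) (fun _ _ => Nat.zero_le _) (Finset.mem_univ i)
  obtain ⟨X, t', hX, htX, -, -, -, htp, htP⟩ := hSel 1 0 (N + Cm + 3)
  obtain ⟨t, ht⟩ : ∃ t : ℕ, t = t' () 0 := ⟨_, rfl⟩
  have htX1 : X ≤ t := by rw [ht]; exact (htX () 0).1
  obtain ⟨a, ha, b, hb, hab⟩ := Finset.one_lt_card.mp (hI ())
  -- order them
  obtain ⟨j, i, hj, hi, hji⟩ : ∃ j i : Fin n, j ∈ I () ∧ i ∈ I () ∧ j < i := by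
    rcases lt_or_gt_of_ne hab with h | h
    · exact ⟨a, b, ha, hb, h⟩
    · exact ⟨b, a, hb, ha, h⟩
  have hpi : (C i * t + 1).Prime := by rw [ht]; exact htp () 0 i hi
  have hpj : (C j * t + 1).Prime := by rw [ht]; exact htp () 0 j hj
  have hCi := C2 i
  have hCj := C2 j
  have htle : t ≤ C i * t := Nat.le_mul_of_pos_left t hCi
  have htlej : t ≤ C j * t := Nat.le_mul_of_pos_left t hCj
  refine ⟨C i * t + 1, by omega, hpi, by omega, ?_⟩
  intro ℓ hℓ hℓd
  rw [Nat.add_sub_cancel] at hℓd ⊢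
  rcases (Nat.Prime.dvd_mul hℓ).mp hℓd with h | h
  · obtain ⟨g, hg, hgk⟩ := C4 i j hji
    obtain ⟨k, hk0, hkg, hkd⟩ := hgk ℓ hℓ h
    have hgC : g ≤ C i := by
      rw [hg]; exact Nat.le_mul_of_pos_left g hCj
    have hkt : k < C j * t + 1 := by
      have := hCle i
      omega
    have hcop : (C j * t + 1).Coprime k := by
      rw [Nat.Prime.coprime_iff_not_dvd hpj]
      intro hd
      have := Nat.le_of_dvd hk0 hd
      omega
    refine ⟨(C j * t + 1) * k, by positivity, ?_, ?_⟩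
    · have h1 : k + 1 ≤ g := hkg
      have h2 : C i * t = C j * t * g := by rw [hg]; ring
      rw [h2]
      have h3 : k ≤ C j * t := by omega
      have h4 : C j * t * (k + 1) ≤ C j * t * g := Nat.mul_le_mul_left _ h1
      nlinarith
    · rw [Nat.totient_mul hcop, Nat.totient_prime hpj, Nat.add_sub_cancel]
      have h2 : C i * t = C j * t * g := by rw [hg]; ring
      rw [h2]
      have h3 : ℓ * (C j * t * k.totient) = C j * t * (ℓ * k.totient) := by ring
      rw [h3]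
      exact Nat.mul_dvd_mul_left _ hkd
  · obtain ⟨P, hP, hPd, hPle, -⟩ := htP () 0 i hi ℓ hℓ (by rw [← ht]; exact h)
    rw [← ht] at hPd hPle
    simp only at hPd hPle
    exact ⟨P, hP.pos, by omega, by rwa [Nat.totient_prime hP]⟩

end SAP
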