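import Pool.Agent.H18.SAP.Stmts
import Pool.Agent.H20.MTA.SIEVE

/-! # SAP: the sieve theorem, uniform for finitely many tuples (module SVU) -/

set_option autoImplicit false

namespace MTA
open Finset

theorem SIEVE_uniform (hMODEL : S_MODEL) (hTRU : S_TRU) (hTRK : S_TRK) (hTRB : S_TRB) (hLAM : S_LAM)
    (hERR : S_ERR) (hCNT : S_CNT) (hDIV : S_DIV) (hFBD : S_FBD) (hCHE : S_CHE)
    (hBVT : S_BVT) : ∃ K : ℕ, 1 ≤ K ∧ ∀ m : ℕ, ∃ n w0 : ℕ, ∀ (c : Fin n → ℕ) (W b : ℕ),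
  TupleOK n w0 c W b → ∀ ε : ℝ, 0 < ε → ∃ (B : ℕ) (X0 : ℝ), ∀ x : ℝ, X0 ≤ x → Good B x →
    x ^ (1 - ε) ≤ (((Icc 1 ⌊8 * x⌋₊).filter (fun t : ℕ => x / 8 ≤ (t : ℝ) ∧ t ≡ b [MOD W] ∧
      (∀ p ∈ t.primeFactors, x ^ (1 / (K : ℝ)) ≤ (p : ℝ)) ∧
      m ≤ (univ.filter (fun i : Fin n => (c i * t + 1).Prime)).card)).card : ℝ) := by
  classical
  obtain ⟨θ, hθ0, hθ1, hM⟩ := hMODEL
  obtain ⟨c1, C1, hc1, hC1, hCh⟩ := hCHE
  obtain ⟨C0, hC0, hTRU'⟩ := hTRU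
  have hK1 : 1 ≤ ⌈30 / θ⌉₊ := Nat.one_le_ceil_iff.mpr (by positivity)
  refine ⟨⌈30 / θ⌉₊, hK1, fun m => ?_⟩
  have hI := SIEVE_Irho_nonneg
  obtain ⟨n, hn, w0, hw0, hM2⟩ := hM (240 * (m + 1) * (Irho + 1) / c1) (by positivity)
  refine ⟨n, w0, fun c W b hT ε hε => ?_⟩
  obtain ⟨L0, hM3⟩ := hM2 W hT.pos hT.small
  obtain ⟨Cd, hCd, hDIV'⟩ := hDIV (ε / (8 * (n + 1))) (by positivity)
  have hφ : (0 : ℝ) < W.totient := by exact_mod_cast Nat.totient_pos.mpr hT.pos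
  have hWr : (0 : ℝ) < W := by exact_mod_cast hT.pos
  -- Bombieri-Vinogradov for each form
  have hBV : ∀ k : Fin n, ∃ (B : ℕ) (x0 : ℝ), ∀ x : ℝ, x0 ≤ x → Good B x →
      ∑ q ∈ (Icc 1 ⌊x ^ (1 / 6 : ℝ)⌋₊).filter Squarefree,
        ((8 * (n + 2) ^ 2 : ℕ) : ℝ) ^ q.primeFactors.card * Emax (c k) x (c k * W * q) ≤
          x / (Real.log x) ^ (2 * n + 3) := fun k =>
    hBVT (2 * n + 3) (8 * (n + 2) ^ 2) (c k) (c k * W) (hT.cpos k)
      (Nat.mul_pos (hT.cpos k) hT.pos)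
  choose BB xB hBB using hBV
  have hTH : ∀ k : Fin n, ∃ x0 : ℝ, ∀ x : ℝ, x0 ≤ x → c1 * (c k * x) ≤ TH (c k) x := by
    intro k
    obtain ⟨x0, h⟩ := hCh (c k) (hT.cpos k)
    exact ⟨x0, fun x hx => (h x hx).1⟩
  choose xT hTH' using hTH
  set Bm : ℕ := ∑ k, BB k with hBm
  set cm : ℕ := ∑ k, c k + 1 with hcm
  have hcmle : ∀ i, c i ≤ cm := fun i =>
    (Finset.single_le_sum (f := c) (fun _ _ => Nat.zero_le _) (Finset.mem_univ i)).trans (Nat.le_succ _)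
  -- eventual conditions
  have hev : ∀ᶠ x : ℝ in Filter.atTop,
      (1 ≤ x ∧ 2 ≤ Real.log x ∧ L0 ≤ Real.log x / 30 ∧ 9 * (cm : ℝ) ≤ x ∧
        8 * Real.exp (2 * (Real.log x / 30)) < x) ∧
      (∀ k, xB k ≤ x) ∧ (∀ k, xT k ≤ x) ∧
      64 * (W.totient : ℝ) / c1 ≤ Real.log x ∧
      64 * m * C0 * (W.totient : ℝ) / c1 * (Real.log x) ^ (2 * n + 3) ≤ x ^ (11 / 15 : ℝ) ∧
      64 * (W.totient : ℝ) * Cd ^ (2 * (n + 1)) / c1 * (Real.log x) ^ (2 * n + 3) ≤ x ^ (ε / 2) := by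
    have hlog := Real.tendsto_log_atTop
    have h8 : ∀ᶠ x : ℝ in Filter.atTop, 8 * Real.exp (2 * (Real.log x / 30)) < x := by
      filter_upwards [Filter.eventually_gt_atTop (1 : ℝ),
        hlog.eventually_gt_atTop (30 / 28 * Real.log 8)] with x hx1 hx
      have hx0 : 0 < x := by linarith
      have : 8 * Real.exp (2 * (Real.log x / 30)) =
          Real.exp (Real.log 8 + 2 * (Real.log x / 30)) := by
        rw [Real.exp_add, Real.exp_log (by norm_num)]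
      rw [this]
      calc Real.exp (Real.log 8 + 2 * (Real.log x / 30)) < Real.exp (Real.log x) := by
            apply Real.exp_lt_exp.mpr; linarith
        _ = x := Real.exp_log hx0
    filter_upwards [Filter.eventually_ge_atTop (1 : ℝ), hlog.eventually_ge_atTop 2,
      hlog.eventually_ge_atTop (30 * L0), Filter.eventually_ge_atTop (9 * (cm : ℝ)), h8,
      Filter.eventually_all.mpr (fun k => Filter.eventually_ge_atTop (xB k)),
      Filter.eventually_all.mpr (fun k => Filter.eventually_ge_atTop (xT k)),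
      hlog.eventually_ge_atTop (64 * (W.totient : ℝ) / c1),
      SIEVE_logpow (64 * m * C0 * (W.totient : ℝ) / c1) (2 * n + 3) (δ := 11 / 15) (by norm_num),
      SIEVE_logpow (64 * (W.totient : ℝ) * Cd ^ (2 * (n + 1)) / c1) (2 * n + 3) (δ := ε / 2)
        (by positivity)] with x a1 a2 a3 a4 a5 a6 a7 a8 a9 a10
    exact ⟨⟨a1, a2, by linarith, a4, a5⟩, a6, a7, a8, a9, a10⟩
  obtain ⟨X0, hX0⟩ := Filter.eventually_atTop.mp hev
  refine ⟨Bm, X0, fun x hxX0 hGood => ?_⟩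
  obtain ⟨⟨hx1, hlog2, hL0, hxcm, hY⟩, hxB, hxT, hc, hd, he⟩ := hX0 x hxX0
  have hx0 : 0 < x := by linarith
  obtain ⟨V, α, hV1, hV2, hα, U, Z, hU0, hZ8, hUU, hZZ, hmain⟩ := hM3 (Real.log x / 30) hL0
  have hEr : ∀ k, ∑ q ∈ (Icc 1 ⌊Real.exp (5 * (Real.log x / 30))⌋₊).filter Squarefree,
      ((8 * (n + 2) ^ 2 : ℕ) : ℝ) ^ q.primeFactors.card * Emax (c k) x (c k * W * q) ≤
        x / (Real.log x) ^ (2 * n + 3) := by
    intro k
    have h1 := hBB k x (hxB k) (SIEVE_Good_mono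
      (Finset.single_le_sum (f := BB) (fun _ _ => Nat.zero_le _) (Finset.mem_univ k))
      (by linarith) hGood)
    have h2 : Real.exp (5 * (Real.log x / 30)) = x ^ (1 / 6 : ℝ) := by
      rw [Real.rpow_def_of_pos hx0]; congr 1; ring
    rw [h2]
    exact h1
  have H := SIEVE_fix hTRK hTRB hLAM hERR hCNT hFBD hC0 hT hw0 (x := x) (L := Real.log x / 30)
    (θ := θ) (V := V) (α := α) (U := U) (Z := Z) (c1 := c1) (Er := x / (Real.log x) ^ (2 * n + 3))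
    (Cd := Cd) (δ := ε / (8 * (n + 1))) m cm
    (fun Y x l hx => hTRU' n w0 c W b hT Y x l hx) hcmle (Nat.le_add_left _ _) hx1 (by positivity)
    hθ0.le hθ1 hα hY hxcm hI (by linarith) hc1.le hCd.le (by positivity) hUU hZZ
    (fun k => hTH' k x (hxT k)) hEr hDIV'
  have hfin := SIEVE_final (m := m) hn hx1 rfl hlog2 hU0 hZ8 hc1 hC0 hCd.le hI hφ hWr rfl hmain rfl rfl
    hc hd he (Nat.cast_nonneg _) H
  refine hfin.trans ?_
  rw [Nat.cast_le]
  refine Finset.card_le_card ?_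
  intro t ht
  unfold SIEVE_G at ht
  rw [Finset.mem_filter] at ht
  obtain ⟨htT, hrough, hw, hcard⟩ := ht
  have h1 := SIEVE_mem_TT hx0.le htT
  rw [Finset.mem_filter]
  have ht0 : (0 : ℝ) < t := by exact_mod_cast h1.1
  refine ⟨?_, ?_, h1.2.2, ?_, ?_⟩
  · unfold TT at htT
    exact (Finset.mem_filter.mp htT).1
  · by_contra hlt
    rw [not_le] at hlt
    apply hw
    unfold wt
    apply rho_zero
    have h2 : Real.log (t / x) ≤ Real.log (1 / 8) := by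
      apply Real.log_le_log (by positivity)
      rw [div_le_iff₀ hx0]
      linarith
    have h3 : Real.log (1 / 8 : ℝ) ≤ -2 := by
      rw [show (1 / 8 : ℝ) = (2 ^ 3)⁻¹ by norm_num, Real.log_inv, Real.log_pow]
      have := Real.log_two_gt_d9
      push_cast
      linarith
    rw [abs_of_nonpos (by linarith)]
    linarith
  · intro p hp
    have hpp := Nat.prime_of_mem_primeFactors hp
    have hpt := Nat.dvd_of_mem_primeFactors hp
    have hpW : ¬ p ∣ W := by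
      intro hpW
      have h2 : p ∣ b := by
        have := (h1.2.2.of_dvd hpW)
        exact (this.dvd_iff (dvd_refl p)).mp hpt
      have h3 : p ∣ Nat.gcd b W := Nat.dvd_gcd h2 hpW
      rw [hT.cop0] at h3
      exact hpp.one_lt.ne' (Nat.dvd_one.mp h3)
    have hnot : p ∉ PP W (Real.exp (θ * (Real.log x / 30))) := fun h => hrough p h hpt
    unfold PP at hnot
    rw [Finset.mem_filter, Finset.mem_Icc] at hnot
    have hfl : ⌊Real.exp (θ * (Real.log x / 30))⌋₊ < p := by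
      by_contra hcon
      rw [not_lt] at hcon
      exact hnot ⟨⟨hpp.two_le, hcon⟩, hpp, hpW⟩
    have h4 : Real.exp (θ * (Real.log x / 30)) < p := (Nat.floor_lt (Real.exp_pos _).le).mp hfl
    refine le_trans ?_ h4.le
    rw [Real.rpow_def_of_pos hx0]
    apply Real.exp_le_exp.mpr
    have h5 : (1 / ((⌈30 / θ⌉₊ : ℕ) : ℝ)) ≤ θ / 30 := by
      have h6 : 30 / θ ≤ (⌈30 / θ⌉₊ : ℝ) := Nat.le_ceil _
      rw [div_le_iff₀ (by positivity)]
      rw [div_le_iff₀ hθ0] at h6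
      linarith
    have hl0 : 0 ≤ Real.log x := by linarith
    calc Real.log x * (1 / ((⌈30 / θ⌉₊ : ℕ) : ℝ)) ≤ Real.log x * (θ / 30) :=
          mul_le_mul_of_nonneg_left h5 hl0
      _ = _ := by ring
  · convert hcard

end MTA

namespace SAP
open Finset MTA

theorem svu (hMODEL : S_MODEL) (hTRU : S_TRU) (hTRK : S_TRK) (hTRB : S_TRB) (hLAM : S_LAM)
    (hERR : S_ERR) (hCNT : S_CNT) (hDIV : S_DIV) (hFBD : S_FBD) (hCHE : S_CHE) (hREP : S_REP)
    (hBVT : S_BVT) : S_SVU := by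
  classical
  obtain ⟨K, hK, H⟩ := SIEVE_uniform hMODEL hTRU hTRK hTRB hLAM hERR hCNT hDIV hFBD hCHE hBVT
  refine ⟨K, hK, fun m => ?_⟩
  obtain ⟨n, w0, H⟩ := H m
  refine ⟨n, w0, ?_⟩
  intro J _ c W b hT ε hε N
  have H2 : ∀ j, ∃ (B : ℕ) (X0 : ℝ), ∀ x : ℝ, X0 ≤ x → Good B x →
    x ^ (1 - ε) ≤ (((Icc 1 ⌊8 * x⌋₊).filter (fun t : ℕ => x / 8 ≤ (t : ℝ) ∧ t ≡ b j [MOD W j] ∧
      (∀ p ∈ t.primeFactors, x ^ (1 / (K : ℝ)) ≤ (p : ℝ)) ∧
      m ≤ (univ.filter (fun i : Fin n => (c j i * t + 1).Prime)).card)).card : ℝ) :=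
    fun j => H (c j) (W j) (b j) (hT j) ε hε
  choose B X0 hB using H2
  obtain ⟨x, hxN, hG⟩ := hREP (∑ j, B j) (max (max N 3) (∑ j, |X0 j|))
  have hx3 : 3 ≤ x := (le_max_right _ _).trans ((le_max_left _ _).trans hxN)
  have hl : 1 ≤ Real.log x := by
    rw [Real.le_log_iff_exp_le (by linarith)]
    have := Real.exp_one_lt_d9
    linarith
  refine ⟨x, (le_max_left _ _).trans ((le_max_left _ _).trans hxN), fun j => ?_⟩
  refine hB j x ?_ ?_
  · calc X0 j ≤ |X0 j| := le_abs_self _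
      _ ≤ ∑ j, |X0 j| := Finset.single_le_sum (f := fun j => |X0 j|) (fun _ _ => abs_nonneg _)
          (Finset.mem_univ j)
      _ ≤ x := (le_max_right _ _).trans hxN
  · exact SIEVE_Good_mono (Finset.single_le_sum (f := B) (fun _ _ => Nat.zero_le _)
      (Finset.mem_univ j)) hl hG

end SAP
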