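import Pool.Agent.H20.MT.Stmts

/-!
# Project SAP (MP_078383_nt): infinitely many singly attained primes

Paper proof: `/team-store/SAP_plan.md`.
-/

set_option autoImplicit false

namespace SAP
open Finset

/-! ## Part A: the sieve -/

/-- the sieve theorem of project MTA, uniform for finitely many tuples (same `x`) -/
def S_SVU : Prop := ∃ K : ℕ, 1 ≤ K ∧ ∀ m : ℕ, ∃ n w0 : ℕ, ∀ (J : Type) [Fintype J]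
  (c : J → Fin n → ℕ) (W b : J → ℕ), (∀ j, MTA.TupleOK n w0 (c j) (W j) (b j)) →
  ∀ ε : ℝ, 0 < ε → ∀ N : ℝ, ∃ x : ℝ, N ≤ x ∧ ∀ j : J,
    x ^ (1 - ε) ≤ (((Icc 1 ⌊8 * x⌋₊).filter (fun t : ℕ => x / 8 ≤ (t : ℝ) ∧ t ≡ b j [MOD W j] ∧
      (∀ p ∈ t.primeFactors, x ^ (1 / (K : ℝ)) ≤ (p : ℝ)) ∧
      m ≤ (univ.filter (fun i : Fin n => (c j i * t + 1).Prime)).card)).card : ℝ)

/-- existence of the data of the sieve -/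
def S_TPL : Prop := ∀ (n w0 : ℕ) (c : Fin n → ℕ), StrictMono c → (∀ i, 1 ≤ c i) →
  (∀ i, ∀ p : ℕ, p.Prime → p ≤ n + 1 → p ∣ c i) → ∃ W b : ℕ, MTA.TupleOK n w0 c W b

/-- popular pattern of primes -/
def S_POP : Prop := ∃ K : ℕ, 1 ≤ K ∧ ∀ m : ℕ, ∃ n : ℕ, ∀ (J : Type) [Fintype J] (c : J → Fin n → ℕ),
  (∀ j, StrictMono (c j)) → (∀ j i, 1 ≤ c j i) →
  (∀ j i, ∀ p : ℕ, p.Prime → p ≤ n + 1 → p ∣ c j i) →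
  ∀ ε : ℝ, 0 < ε → ∃ I : J → Finset (Fin n), (∀ j, m ≤ (I j).card) ∧ ∀ N : ℝ, ∃ x : ℝ, N ≤ x ∧
    ∀ j : J, x ^ (1 - ε) ≤ (((Icc 1 ⌊8 * x⌋₊).filter (fun t : ℕ => x / 8 ≤ (t : ℝ) ∧
      (∀ p ∈ t.primeFactors, x ^ (1 / (K : ℝ)) ≤ (p : ℝ)) ∧
      ∀ i ∈ I j, (c j i * t + 1).Prime)).card : ℝ)

/-- few `t` share a prime factor with a given number without small prime factors; such a number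
has few prime factors -/
def S_SHR : Prop := ∀ K : ℕ, 1 ≤ K → ∀ x : ℝ, 2 ≤ x → ∀ t0 : ℕ, 1 ≤ t0 → (t0 : ℝ) ≤ 8 * x →
  (∀ p ∈ t0.primeFactors, x ^ (1 / (K : ℝ)) ≤ (p : ℝ)) → t0.primeFactors.card ≤ 4 * K ∧
  (((Icc 1 ⌊8 * x⌋₊).filter (fun t : ℕ => ¬ t.Coprime t0)).card : ℝ) ≤
    32 * K * x ^ (1 - 1 / (K : ℝ))

/-- `P` is the least prime in the class `1` modulo `c * t / ρ`, and `P + S ≤ c * t` -/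
def Lst (c t ρ S P : ℕ) : Prop := P.Prime ∧ c * t ∣ ρ * (P - 1) ∧ P + S ≤ c * t ∧
  ∀ P' : ℕ, P'.Prime → c * t ∣ ρ * (P' - 1) → P ≤ P'

open Classical in
/-- few `t` are bad -/
def S_BAD : Prop := ∀ K c S : ℕ, 1 ≤ K → 1 ≤ c → ∃ C : ℝ, 0 < C ∧ ∀ x : ℝ, 2 ≤ x →
  (((Icc 1 ⌊8 * x⌋₊).filter (fun t : ℕ => (∀ p ∈ t.primeFactors, x ^ (1 / (K : ℝ)) ≤ (p : ℝ)) ∧
    (c * t + 1).Prime ∧ ∃ ρ : ℕ, ρ.Prime ∧ ρ ∣ t ∧ ¬ ∃ P : ℕ, Lst c t ρ S P)).card : ℝ) ≤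
      C * x ^ (1 - 1 / (K : ℝ))

/-- the selection property of a family of tuples `c j` with patterns `I j` -/
def Sel (K : ℕ) {J : Type} {n : ℕ} (c : J → Fin n → ℕ) (I : J → Finset (Fin n)) : Prop :=
  ∀ R S X0 : ℕ, ∃ (X : ℕ) (t : J → Fin R → ℕ), X0 ≤ X ∧
    (∀ j r, X ≤ t j r ∧ t j r ≤ 100 * X) ∧
    (∀ j r j' r', (j, r) ≠ (j', r') → (t j r).Coprime (t j' r')) ∧
    (∀ j r, ∀ p : ℕ, p.Prime → p ∣ t j r → X0 < p) ∧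
    (∀ j r, (t j r).primeFactors.card ≤ K) ∧
    (∀ j r, ∀ i ∈ I j, (c j i * t j r + 1).Prime) ∧
    (∀ j r, ∀ i ∈ I j, ∀ ρ : ℕ, ρ.Prime → ρ ∣ t j r → ∃ P : ℕ, P.Prime ∧
      c j i * t j r ∣ ρ * (P - 1) ∧ P + S ≤ c j i * t j r ∧
      ∀ j' r', ∀ i' ∈ I j', P ≠ c j' i' * t j' r' + 1)

/-- the interface to the sieve -/
def S_SEL : Prop := ∃ K : ℕ, ∀ m : ℕ, ∃ n : ℕ, ∀ (J : Type) [Fintype J] (c : J → Fin n → ℕ),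
  (∀ j, StrictMono (c j)) → (∀ j i, 1 ≤ c j i) →
  (∀ j i, ∀ p : ℕ, p.Prime → p ≤ n + 1 → p ∣ c j i) →
  ∃ I : J → Finset (Fin n), (∀ j, m ≤ (I j).card) ∧ Sel K c I

/-! ## Part B: gadgets -/

/-- the data of the gadget for the prime 2 -/
structure Gad (M T Y0 e : ℕ) (t q : Fin T → ℕ) : Prop where
  he : 1 ≤ e
  hq : ∀ a, q a = 2 * e ^ M * t a + 1
  hp : ∀ a, (q a).Prime
  ht : ∀ a, 2 ≤ t a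
  cop : ∀ a b, a ≠ b → (t a).Coprime (t b)
  ndvd : ∀ a b, ¬ q a ∣ t b
  rough : ∀ a, ∀ p : ℕ, p.Prime → p ∣ t a → Y0 < p
  cost : ∀ a, (t a : ℝ) / (t a).totient * ((q a : ℝ) / (q a - 1)) ≤ 1 + 1 / (4 * M)

def S_GAD : Prop := ∀ M T Y0 : ℕ, 1 ≤ M → ∃ (e : ℕ) (t q : Fin T → ℕ), Gad M T Y0 e t q

/-- gadget for 2 -/
def S_GD2 : Prop := ∀ (M T e : ℕ) (t q : Fin T → ℕ) (S : Finset (Fin T)), 1 ≤ M →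
  Gad M T 3 e t q → S.card = M → ∃ k0 : ℕ, 0 < k0 ∧ k0 < 2 * k0.totient ∧ k0.Coprime 6 ∧
    2 * k0.totient = (2 * e ^ (M - 1)) ^ M * ∏ a ∈ S, (t a * (t a).totient)

/-- cost of the product of all primes up to a prime `ℓ ≥ 5` -/
def S_CO5 : Prop := ∀ ℓ : ℕ, ℓ.Prime → 5 ≤ ℓ → primorial ℓ < ℓ * (primorial ℓ).totient

/-- gadget for `ℓ ≥ 5` -/
def S_GD5 : Prop := ∀ M ℓ : ℕ, 2 ≤ M → ℓ.Prime → 5 ≤ ℓ → ∃ k0 w : ℕ, 0 < k0 ∧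
  k0 < ℓ * k0.totient ∧ ℓ * k0.totient = w ^ M ∧ 1 ≤ w ∧ ∀ p : ℕ, p.Prime → p ∣ w → p ≤ ℓ

/-- all gadgets, for a set `H` of admissible ratios -/
def S_GDG : Prop := ∀ (M T Y e : ℕ) (t q : Fin T → ℕ) (H : ℚ → Prop) (S : Finset (Fin T)),
  2 ≤ M → e ≤ Y → (∀ a, t a ≤ Y) → Gad M T 3 e t q → H 1 → (∀ a b, H a → H b → H (a * b)) →
  (∀ w : ℕ, 1 ≤ w → (∀ p : ℕ, p.Prime → p ∣ w → p ≤ Y) → H ((w : ℚ) ^ M)) → S.card = M →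
  (∀ a ∈ S, ∀ b ∈ S, H (((t a * (t a).totient : ℕ) : ℚ) / ((t b * (t b).totient : ℕ) : ℚ))) →
  ∀ ℓ : ℕ, ℓ.Prime → ℓ ≤ Y → ∃ k0 : ℕ, 0 < k0 ∧ k0 < ℓ * k0.totient ∧
    H ((ℓ * k0.totient : ℕ) : ℚ)

/-- pigeonhole -/
def S_PIG : Prop := ∀ (T n M : ℕ) (r : Fin T → Fin T → Prop), (∀ a, r a a) →
  (∀ a b, r a b → r b a) → (∀ a b c, r a b → r b c → r a c) →
  (∀ f : Fin n ↪o Fin T, ∃ i j, i ≠ j ∧ r (f i) (f j)) → n * M ≤ T →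
  ∃ S : Finset (Fin T), S.card = M ∧ ∀ a ∈ S, ∀ b ∈ S, r a b

/-! ## Part C: exchanges -/

/-- value of an elementary exchange -/
def val {J : Type} {n : ℕ} (c : J → Fin n → ℕ) (lo hi : J → Fin n) (s : J × Bool) : ℚ :=
  if s.2 then (c s.1 (hi s.1) : ℚ) / c s.1 (lo s.1) else (c s.1 (lo s.1) : ℚ) / c s.1 (hi s.1)

/-- the ratio `τ` is a product of elementary exchanges -/
def Ex {J : Type} {n : ℕ} (c : J → Fin n → ℕ) (lo hi : J → Fin n) (τ : ℚ) : Prop :=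
  ∃ s : List (J × Bool), τ = (s.map (val c lo hi)).prod

theorem Ex.one {J : Type} {n : ℕ} (c : J → Fin n → ℕ) (lo hi : J → Fin n) : Ex c lo hi 1 :=
  ⟨[], by simp⟩

theorem Ex.mul {J : Type} {n : ℕ} {c : J → Fin n → ℕ} {lo hi : J → Fin n} {a b : ℚ}
    (ha : Ex c lo hi a) (hb : Ex c lo hi b) : Ex c lo hi (a * b) := by
  obtain ⟨s, rfl⟩ := ha
  obtain ⟨s', rfl⟩ := hb
  exact ⟨s ++ s', by simp⟩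

theorem Ex.inv {J : Type} {n : ℕ} {c : J → Fin n → ℕ} {lo hi : J → Fin n} {a : ℚ}
    (ha : Ex c lo hi a) : Ex c lo hi a⁻¹ := by
  obtain ⟨s, rfl⟩ := ha
  refine ⟨s.map (fun x => (x.1, !x.2)), ?_⟩
  induction s with
  | nil => simp
  | cons x s ih =>
    simp only [List.map_cons, List.prod_cons, mul_inv, ih]
    congr 1
    rcases x with ⟨j, b⟩
    cases b <;> simp [val]

theorem Ex.step {J : Type} {n : ℕ} (c : J → Fin n → ℕ) (lo hi : J → Fin n) (j : J) :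
    Ex c lo hi ((c j (hi j) : ℚ) / c j (lo j)) :=
  ⟨[(j, true)], by simp [val]⟩

theorem Ex.pow {J : Type} {n : ℕ} {c : J → Fin n → ℕ} {lo hi : J → Fin n} {a : ℚ}
    (ha : Ex c lo hi a) (k : ℕ) : Ex c lo hi (a ^ k) := by
  induction k with
  | zero => simpa using Ex.one c lo hi
  | succ k ih => rw [pow_succ]; exact ih.mul ha

/-- index type of the tuples: a prime `p ≤ Y`, or `n` of the numbers `F a` -/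
abbrev JJ (n T Y : ℕ) : Type := {p : Fin (Y + 1) // (p : ℕ).Prime} ⊕ (Fin n ↪o Fin T)

/-- the tuples -/
def cc (n T Y M u : ℕ) (F : Fin T → ℕ) : JJ n T Y → Fin n → ℕ
  | Sum.inl p, i => primorial Y * ((p.1 : ℕ) ^ (i : ℕ))
  | Sum.inr f, i => primorial Y * (F (f i) * 2 ^ (M * u * (i : ℕ)))

def S_TUA : Prop := ∀ (n T Y M u : ℕ) (F : Fin T → ℕ), 2 ≤ Y → 1 ≤ M →
  (∀ a, 1 ≤ F a ∧ F a < 2 ^ u) → (∀ a, ∀ p : ℕ, p.Prime → p ∣ F a → p ≤ Y) →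
  (∀ j, StrictMono (cc n T Y M u F j)) ∧ (∀ j i, 1 ≤ cc n T Y M u F j i) ∧
  (∀ j i, ∀ p : ℕ, p.Prime → p ≤ Y → p ∣ cc n T Y M u F j i) ∧
  (∀ j i, ∀ p : ℕ, p.Prime → p ∣ cc n T Y M u F j i → p ≤ Y)

def S_EXA : Prop := ∀ (n T Y M u : ℕ) (F : Fin T → ℕ) (lo hi : JJ n T Y → Fin n), 2 ≤ Y →
  (∀ a, 1 ≤ F a) → (∀ d : ℕ, 1 ≤ d → d < n → d ∣ M) → (∀ j, lo j < hi j) →
  (∀ w : ℕ, 1 ≤ w → (∀ p : ℕ, p.Prime → p ∣ w → p ≤ Y) →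
    Ex (cc n T Y M u F) lo hi ((w : ℚ) ^ M)) ∧
  (∀ f : Fin n ↪o Fin T, Ex (cc n T Y M u F) lo hi
    ((F (f (hi (Sum.inr f))) : ℚ) / (F (f (lo (Sum.inr f))) : ℚ)))

/-! ## Part D: assembly of the chain -/

/-- the chain property -/
def CP {L : ℕ} (C : Fin L → ℕ) : Prop := ∀ i j, j < i → ∃ g : ℕ, C i = C j * g ∧
  ∀ ℓ : ℕ, ℓ.Prime → ℓ ∣ C i → ∃ k : ℕ, 0 < k ∧ k < g ∧ g ∣ ℓ * k.totient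

def S_CHN : Prop := ∀ (L : ℕ) (h Q : Fin L → ℕ),
  (∀ l, 0 < Q l ∧ (Q l).totient = h l ∧ 2 ≤ h l) → (∀ l l', l ≠ l' → (Q l).Coprime (Q l')) →
  (∀ l l', ∀ ℓ : ℕ, ℓ.Prime → ℓ ∣ h l → ℓ ∣ h l') →
  (∀ l, ∀ ℓ : ℕ, ℓ.Prime → ℓ ∣ h l → ∃ k : ℕ, 0 < k ∧ (∀ l', l' ≠ l → k.Coprime (Q l')) ∧
    h l ∣ ℓ * k.totient ∧ k * ∏ l' ∈ univ.erase l, Q l' < h l * ∏ l' ∈ univ.erase l, h l') →
  StrictMono (fun i : Fin L => ∏ l ∈ Iic i, h l) ∧ CP (fun i : Fin L => ∏ l ∈ Iic i, h l)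

/-- cost of a product of large primes -/
def S_CIN : Prop := ∀ (ι : Type) (s : Finset ι) (a : ι → ℕ) (X : ℕ), (∀ i ∈ s, X ≤ a i) →
  s.card ≤ X → X * ∏ i ∈ s, (a i + 1) ≤ (X + 2 * s.card) * ∏ i ∈ s, a i

/-- the system at one scale: `Pos` positions, numbers `t π`, forms `A l π` (stage `l`), alternative
forms `B l ℓ π` (stage `l`, target prime `ℓ`), gadgets `k0 l ℓ` -/
structure Sys (L Y S X X0 Cm G : ℕ) (Pos : Type) [Fintype Pos] (t : Pos → ℕ) (A : Fin L → Pos → ℕ)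
    (B : Fin L → ℕ → Pos → ℕ) (k0 : Fin L → ℕ → ℕ) : Prop where
  tX : ∀ π, X ≤ t π ∧ t π ≤ 100 * X
  tcop : ∀ π π', π ≠ π' → (t π).Coprime (t π')
  trough : ∀ π, ∀ p : ℕ, p.Prime → p ∣ t π → X0 < p
  Apos : ∀ l π, 1 ≤ A l π ∧ A l π ≤ Cm
  Bpos : ∀ l, ∀ ℓ : ℕ, ℓ.Prime → ℓ ≤ Y → ∀ π, 1 ≤ B l ℓ π ∧ B l ℓ π ≤ Cm
  Adiv : ∀ l π, ∀ p : ℕ, p.Prime → p ≤ Y → p ∣ A l π
  Asm : ∀ l π, ∀ p : ℕ, p.Prime → p ∣ A l π → p ≤ Y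
  Apr : ∀ l π, (A l π * t π + 1).Prime
  Bpr : ∀ l, ∀ ℓ : ℕ, ℓ.Prime → ℓ ≤ Y → ∀ π, (B l ℓ π * t π + 1).Prime
  AA : ∀ l l' π, l ≠ l' → A l π ≠ A l' π
  AB : ∀ l l' π, ∀ ℓ : ℕ, ℓ.Prime → ℓ ≤ Y → l ≠ l' → B l ℓ π ≠ A l' π
  kpos : ∀ l, ∀ ℓ : ℕ, ℓ.Prime → ℓ ≤ Y → 0 < k0 l ℓ ∧ k0 l ℓ < ℓ * (k0 l ℓ).totient ∧
    ℓ * (k0 l ℓ).totient ≤ G
  bal : ∀ l, ∀ ℓ : ℕ, ℓ.Prime → ℓ ≤ Y → ∏ π, A l π = ℓ * (k0 l ℓ).totient * ∏ π, B l ℓ π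
  rho : ∀ l π, ∀ ρ : ℕ, ρ.Prime → ρ ∣ t π → ∃ P : ℕ, P.Prime ∧ A l π * t π ∣ ρ * (P - 1) ∧
    P + S ≤ A l π * t π ∧ ∀ l' π', P ≠ A l' π' * t π' + 1
  X0C : Cm ≤ X0
  X0Y : Y ≤ X0
  XG : 2 * (L * Fintype.card Pos) * G < X
  XG' : G < X
  SC : 200 * (L * Fintype.card Pos) * Cm < S

/-- the totients of the stages -/
def hs {L : ℕ} {Pos : Type} [Fintype Pos] (t : Pos → ℕ) (A : Fin L → Pos → ℕ) (l : Fin L) : ℕ :=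
  ∏ π, A l π * t π

/-- the numbers of the stages -/
def Qs {L : ℕ} {Pos : Type} [Fintype Pos] (t : Pos → ℕ) (A : Fin L → Pos → ℕ) (l : Fin L) : ℕ :=
  ∏ π, (A l π * t π + 1)

/-- basic facts on a system -/
def S_SY0 : Prop := ∀ (L Y S X X0 Cm G : ℕ) (Pos : Type) [Fintype Pos] [Nonempty Pos]
  (t : Pos → ℕ) (A : Fin L → Pos → ℕ) (B : Fin L → ℕ → Pos → ℕ) (k0 : Fin L → ℕ → ℕ),
  2 ≤ Y → Sys L Y S X X0 Cm G Pos t A B k0 →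
  (∀ π π' : Pos, π ≠ π' → ∀ a b : ℕ, 1 ≤ a → a ≤ Cm → 1 ≤ b → b ≤ Cm → 2 ≤ X →
    a * t π + 1 ≠ b * t π' + 1) ∧
  (∀ l, 2 ≤ X ∧ 0 < Qs t A l ∧ (Qs t A l).totient = hs t A l ∧ 2 ≤ hs t A l) ∧
  (∀ l l', l ≠ l' → (Qs t A l).Coprime (Qs t A l')) ∧
  (∀ l l', ∀ ℓ : ℕ, ℓ.Prime → ℓ ∣ hs t A l → ℓ ∣ hs t A l') ∧
  (∀ l, ∀ p : ℕ, p.Prime → p ≤ Y → p ∣ hs t A l)

/-- target prime `ℓ ≤ Y` -/
def S_SYB : Prop := ∀ (L Y S X X0 Cm G : ℕ) (Pos : Type) [Fintype Pos] [Nonempty Pos]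
  (t : Pos → ℕ) (A : Fin L → Pos → ℕ) (B : Fin L → ℕ → Pos → ℕ) (k0 : Fin L → ℕ → ℕ),
  2 ≤ Y → Sys L Y S X X0 Cm G Pos t A B k0 → ∀ l, ∀ ℓ : ℕ, ℓ.Prime → ℓ ≤ Y →
  ∃ k : ℕ, 0 < k ∧ (∀ l', l' ≠ l → k.Coprime (Qs t A l')) ∧ hs t A l ∣ ℓ * k.totient ∧
    k * ∏ l' ∈ univ.erase l, Qs t A l' < hs t A l * ∏ l' ∈ univ.erase l, hs t A l'

/-- target prime `ρ > Y` -/
def S_SYR : Prop := ∀ (L Y S X X0 Cm G : ℕ) (Pos : Type) [Fintype Pos] [Nonempty Pos]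
  (t : Pos → ℕ) (A : Fin L → Pos → ℕ) (B : Fin L → ℕ → Pos → ℕ) (k0 : Fin L → ℕ → ℕ),
  2 ≤ Y → Sys L Y S X X0 Cm G Pos t A B k0 → ∀ l, ∀ ρ : ℕ, ρ.Prime → Y < ρ → ρ ∣ hs t A l →
  ∃ k : ℕ, 0 < k ∧ (∀ l', l' ≠ l → k.Coprime (Qs t A l')) ∧ hs t A l ∣ ρ * k.totient ∧
    k * ∏ l' ∈ univ.erase l, Qs t A l' < hs t A l * ∏ l' ∈ univ.erase l, hs t A l'

def S_SYS : Prop := ∀ (L Y S X X0 Cm G : ℕ) (Pos : Type) [Fintype Pos] [Nonempty Pos]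
  (t : Pos → ℕ) (A : Fin L → Pos → ℕ) (B : Fin L → ℕ → Pos → ℕ) (k0 : Fin L → ℕ → ℕ),
  2 ≤ Y → Sys L Y S X X0 Cm G Pos t A B k0 →
  ∃ C : Fin L → ℕ, StrictMono C ∧ (∀ i, 1 ≤ C i) ∧ (∀ i, ∀ p : ℕ, p.Prime → p ≤ Y → p ∣ C i) ∧ CP C

def S_ASM : Prop := ∀ (K L n Y : ℕ) (J : Type) [Fintype J] (c : J → Fin n → ℕ)
  (I : J → Finset (Fin n)), 1 ≤ L → 2 ≤ Y → (∀ j, StrictMono (c j)) → (∀ j i, 1 ≤ c j i) →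
  (∀ j i, ∀ p : ℕ, p.Prime → p ≤ Y → p ∣ c j i) →
  (∀ j i, ∀ p : ℕ, p.Prime → p ∣ c j i → p ≤ Y) →
  (∀ j, 2 * L ≤ (I j).card) → Sel K c I →
  (∀ lo hi : J → Fin n, (∀ j, lo j < hi j) → ∀ ℓ : ℕ, ℓ.Prime → ℓ ≤ Y →
    ∃ k0 : ℕ, 0 < k0 ∧ k0 < ℓ * k0.totient ∧ Ex c lo hi ((ℓ * k0.totient : ℕ) : ℚ)) →
  ∃ C : Fin L → ℕ, StrictMono C ∧ (∀ i, 1 ≤ C i) ∧ (∀ i, ∀ p : ℕ, p.Prime → p ≤ Y → p ∣ C i) ∧ CP C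

/-- chains of arbitrary length -/
def S_CHAIN : Prop := ∀ L : ℕ, ∃ C : Fin L → ℕ, StrictMono C ∧ (∀ i, 1 ≤ C i) ∧
  (∀ i, ∀ p : ℕ, p.Prime → p ≤ L + 1 → p ∣ C i) ∧ CP C

/-! ## Part E: the end -/

/-- criterion for singly attained primes -/
def S_CRI : Prop := ∀ p : ℕ, p.Prime → 3 ≤ p →
  (∀ ℓ : ℕ, ℓ.Prime → ℓ ∣ p - 1 → ∃ k : ℕ, 0 < k ∧ k < p ∧ (p - 1) ∣ ℓ * k.totient) →
  ∀ n : ℕ, sInf {k : ℕ | 0 < k ∧ n ∣ k.totient} = p ↔ n = p - 1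

def S_FIN : Prop := ∀ N : ℕ, ∃ p : ℕ, N ≤ p ∧ p.Prime ∧ 3 ≤ p ∧
  ∀ ℓ : ℕ, ℓ.Prime → ℓ ∣ p - 1 → ∃ k : ℕ, 0 < k ∧ k < p ∧ (p - 1) ∣ ℓ * k.totient

end SAP
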