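import Pool.Agent.H20.MTA.All
import Pool.Agent.H18.SAP.SVU
import Pool.Agent.H18.SAP.ASM
import Pool.Agent.H18.SAP.CHAIN
import Pool.Agent.H18.SAP.FIN
import Pool.Agent.H11.SAP.EXA
import Pool.Agent.H11.SAP.PIG
import Pool.Agent.H15.SAP.BAD
import Pool.Agent.H15.SAP.CHN
import Pool.Agent.H15.SAP.SYR
import Pool.Agent.H19.SAP.TPL
import Pool.Agent.H22.SAP.SEL
import Pool.Agent.H22.SAP.SYB
import Pool.Agent.H47.SAP.CIN
import Pool.Agent.H47.SAP.CRI
import Pool.Agent.H47.SAP.GAD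
import Pool.Agent.H47.SAP.SY0
import Pool.Agent.H47.SAP.SYS
import Pool.Agent.H87.SAP.CO5
import Pool.Agent.H7.SAP.POP
import Pool.Agent.H5.SAP.SHR
import Pool.Agent.H5.SAP.GD2
import Pool.Agent.H95.SAP.GD5
import Pool.Agent.H95.SAP.GDG
import Pool.Agent.H95.SAP.TUA

/-! # SAP: assembly of all modules -/

set_option autoImplicit false

namespace SAP

theorem all_SVU : S_SVU := svu MTA.all_MODEL MTA.all_TRU MTA.all_TRK MTA.all_TRB MTA.all_LAM
  MTA.all_ERR MTA.all_CNT MTA.all_DIV MTA.all_FBD MTA.all_CHE MTA.all_REP MTA.all_BVT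

theorem all_TPL : S_TPL := tpl

theorem all_POP : S_POP := pop all_SVU all_TPL

theorem all_SHR : S_SHR := shr

theorem all_BAD : S_BAD := bad

theorem all_SEL : S_SEL := sel all_POP all_SHR all_BAD

theorem all_GAD : S_GAD := gad all_SEL

theorem all_GD2 : S_GD2 := gd2

theorem all_CO5 : S_CO5 := co5

theorem all_GD5 : S_GD5 := gd5 all_CO5

theorem all_GDG : S_GDG := gdg all_GD2 all_GD5

theorem all_PIG : S_PIG := pig

theorem all_TUA : S_TUA := tua

theorem all_EXA : S_EXA := exa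

theorem all_CHN : S_CHN := chn

theorem all_CIN : S_CIN := cin

theorem all_SY0 : S_SY0 := sy0

theorem all_SYB : S_SYB := syb all_SY0 all_CIN

theorem all_SYR : S_SYR := syr all_SY0 all_CIN

theorem all_SYS : S_SYS := sys all_CHN all_SY0 all_SYB all_SYR

theorem all_ASM : S_ASM := asm all_SYS

theorem all_CHAIN : S_CHAIN := chain all_SEL all_GAD all_GDG all_PIG all_TUA all_EXA all_ASM

theorem all_CRI : S_CRI := cri

theorem all_FIN : S_FIN := fin all_SEL all_CHAIN

end SAP
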